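import Pool.Agent.Q29.FK.Main

/-!
# The constant `K_g` for `g(x) = 2^(x-1)` equals `2`

The definitions (balls, growth, inner boundary, Følner function, the constant `K g`) are in
`Pool.Agent.Q29.FK.Defs`; they follow the problem word by word.  The lower bound `2 ≤ K g` comes
from the inequality `γ_S(2n-2) ≤ n * Føl(n)`, which holds for every group with a finite symmetric
set `S` and every `n ≥ 1`; the upper bound from the lamplighter group.
-/

namespace Pool.Agent.Results.MP_60a09a_al.ExponentialCase

universe u

/-- For `g(x) = 2^(x-1)` the constant `K_g` is `2`: the infimum, over all groups with a finite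
symmetric generating set such that `γ_S(n-1) ≥ 2^(n-1)` for all `n ≥ 1`, of
`liminf_n g⁻¹(Føl(n)) / n`, is equal to `2`. -/
theorem result : Q29.FK.K.{u} (fun x : ℝ => (2 : ℝ) ^ (x - 1)) = 2 :=
  Q29.FK.K_g2

end Pool.Agent.Results.MP_60a09a_al.ExponentialCase
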